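import Pool.Agent.L7h32.PI.Gen

/-!
# Project PF: classes of nearly affine maps: equicontinuity and limits
-/

set_option autoImplicit false
set_option linter.unusedSectionVars false
set_option linter.unusedVariables false

open Set Filter Topology Metric MeasureTheory
open scoped ContDiff

noncomputable section

namespace Pool.Agent.L7h32.PF

open Pool.Agent.L7h32.AA Pool.Agent.L7h32.PI

section cls

variable {E : Type} [NormedAddCommGroup E] [NormedSpace ℝ E] {K : Set E}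

/-- nearly affine at all scales `≤ r₀` -/
def Cls (K : Set E) (ε H r₀ : ℝ) (F : E → E) : Prop :=
  ∀ r : ℝ, 0 < r → r ≤ r₀ → NAff K ε H r F

/-- points at given distance -/
def Pts (K : Set E) (ρ₀ : ℝ) : Prop :=
  ∀ x ∈ K, ∀ ρ : ℝ, 0 ≤ ρ → ρ ≤ ρ₀ → ∃ y ∈ K, ‖y - x‖ = ρ

theorem exists_pts (hK : IsPreconnected K) {p q : E} (hp : p ∈ K) (hq : q ∈ K) (hpq : p ≠ q) :
    ∃ ρ₀ : ℝ, 0 < ρ₀ ∧ Pts K ρ₀ := by
  have h0 : 0 < ‖p - q‖ := norm_pos_iff.2 (sub_ne_zero.2 hpq)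
  refine ⟨‖p - q‖ / 2, by positivity, fun x hx ρ hρ hρ2 => ?_⟩
  obtain ⟨z, hz, hz2⟩ : ∃ z ∈ K, ‖p - q‖ / 2 ≤ ‖z - x‖ := by
    by_contra hcon
    push Not at hcon
    have h1 := hcon p hp
    have h2 := hcon q hq
    have h3 : ‖p - q‖ ≤ ‖p - x‖ + ‖q - x‖ := by
      calc ‖p - q‖ = ‖(p - x) - (q - x)‖ := by congr 1; abel
        _ ≤ _ := norm_sub_le _ _
    linarith
  have h4 := hK.intermediate_value hx hz (f := fun y => ‖y - x‖) (by fun_prop)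
  obtain ⟨y, hy, hy2⟩ := h4 (show ρ ∈ Icc _ _ from ⟨by simpa using hρ, hρ2.trans hz2⟩)
  exact ⟨y, hy, hy2⟩

/-- chains -/
theorem chain (hK : IsPreconnected K) {Z : Set E} {ρ : ℝ} (hρ : 0 < ρ) (hZ : Z ⊆ K) (hne : Z.Nonempty)
    (h : ∀ x ∈ Z, ∀ y ∈ K, ‖y - x‖ < ρ → y ∈ Z) : K ⊆ Z := by
  obtain ⟨z₀, hz₀⟩ := hne
  by_contra hcon
  obtain ⟨z₁, hz₁, hz₁'⟩ := not_subset.1 hcon
  obtain ⟨z, hz, hz1, hz2⟩ := hK (⋃ x ∈ Z, ball x ρ) (⋃ x ∈ K \ Z, ball x ρ)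
    (isOpen_biUnion fun _ _ => isOpen_ball) (isOpen_biUnion fun _ _ => isOpen_ball)
    (fun x hx => by
      by_cases hxZ : x ∈ Z
      · exact Or.inl (mem_biUnion hxZ (mem_ball_self hρ))
      · exact Or.inr (mem_biUnion (show x ∈ K \ Z from ⟨hx, hxZ⟩) (mem_ball_self hρ)))
    ⟨z₀, hZ hz₀, mem_biUnion hz₀ (mem_ball_self hρ)⟩
    ⟨z₁, hz₁, mem_biUnion (show z₁ ∈ K \ Z from ⟨hz₁, hz₁'⟩) (mem_ball_self hρ)⟩
  obtain ⟨x, hx, hzx⟩ := mem_iUnion₂.1 hz1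
  obtain ⟨y, hy, hzy⟩ := mem_iUnion₂.1 hz2
  rw [mem_ball, dist_eq_norm] at hzx hzy
  have h1 : z ∈ Z := h x hx z hz hzx
  exact hy.2 (h z h1 y hy.1 (by rwa [norm_sub_rev]))

/-- one step for the oscillation -/
theorem osc_step {ρ₀ ε H r A : ℝ} (hpt : Pts K ρ₀) (hε0 : 0 ≤ ε) (hε : ε ≤ 1 / 24) (hH : 1 ≤ H)
    (hr : 0 < r) (hrρ : r ≤ ρ₀) {F : E → E} (hF : NAff K ε H r F) {x : E} (hx : x ∈ K)
    (hA : ∀ y ∈ K, ‖y - x‖ ≤ r → ‖F y - F x‖ ≤ A) :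
    ∀ y ∈ K, ‖y - x‖ ≤ r * (1 / (16 * H)) → ‖F y - F x‖ ≤ A / 2 := by
  obtain ⟨l, T, b, hl, hT, hTH, hb⟩ := hF x hx
  have hdif : ∀ y ∈ K, ‖y - x‖ ≤ r → ‖(F y - F x) - T (y - x)‖ ≤ 2 * (ε * l * r) := by
    intro y hy hyx
    have h1 := hb y hy hyx
    have h2 := hb x hx (by rw [sub_self, norm_zero]; exact hr.le)
    calc ‖(F y - F x) - T (y - x)‖ = ‖(F y - (T y + b)) - (F x - (T x + b))‖ := by
          rw [map_sub]; congr 1; abel
      _ ≤ _ := norm_sub_le _ _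
      _ ≤ _ := by linarith
  obtain ⟨y₀, hy₀, hy₀r⟩ := hpt x hx r hr.le hrρ
  have h1 := hdif y₀ hy₀ hy₀r.le
  have h2 := hA y₀ hy₀ hy₀r.le
  have h3 := hT (y₀ - x)
  rw [hy₀r] at h3
  have h4 : ‖T (y₀ - x)‖ ≤ ‖F y₀ - F x‖ + ‖(F y₀ - F x) - T (y₀ - x)‖ := by
    have : T (y₀ - x) = (F y₀ - F x) - ((F y₀ - F x) - T (y₀ - x)) := by abel
    calc ‖T (y₀ - x)‖ = ‖(F y₀ - F x) - ((F y₀ - F x) - T (y₀ - x))‖ := by rw [← this]
      _ ≤ _ := norm_sub_le _ _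
  have hlr : 0 < l * r := by positivity
  have h5 : ε * l * r ≤ 1 / 24 * (l * r) := by
    rw [mul_assoc]
    gcongr
  have h6 : l * r * (11 / 12) ≤ A := by linarith
  intro y hy hyx
  have h16 : r * (1 / (16 * H)) ≤ r := by
    calc r * (1 / (16 * H)) ≤ r * 1 := by
          gcongr
          rw [div_le_one (by positivity)]
          linarith
      _ = r := mul_one r
  have h7 := hdif y hy (hyx.trans h16)
  have h8 : ‖T (y - x)‖ ≤ l * r / 16 := by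
    calc ‖T (y - x)‖ ≤ H * l * ‖y - x‖ := hTH _
      _ ≤ H * l * (r * (1 / (16 * H))) := by gcongr
      _ = l * r / 16 := by field_simp
  have h9 : ‖F y - F x‖ ≤ ‖(F y - F x) - T (y - x)‖ + ‖T (y - x)‖ := by
    calc ‖F y - F x‖ = ‖((F y - F x) - T (y - x)) + T (y - x)‖ := by congr 1; abel
      _ ≤ _ := norm_add_le _ _
  linarith

/-- equicontinuity of the class -/
theorem equi {ρ₀ ε H r₀ D : ℝ} (hpt : Pts K ρ₀) (hρ₀ : 0 < ρ₀) (hε0 : 0 ≤ ε) (hε : ε ≤ 1 / 24)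
    (hH : 1 ≤ H) (hr₀ : 0 < r₀) (hD : ∀ x ∈ K, ∀ y ∈ K, ‖x - y‖ ≤ D) {w : ℝ} (hw : 0 < w) :
    ∃ r : ℝ, 0 < r ∧ ∀ F : E → E, Cls K ε H r₀ F → MapsTo F K K → ∀ x ∈ K, ∀ y ∈ K,
      ‖x - y‖ ≤ r → ‖F x - F y‖ ≤ w := by
  set r₁ : ℝ := min r₀ ρ₀ with hr₁
  have hr₁0 : 0 < r₁ := lt_min hr₀ hρ₀
  set q : ℝ := 1 / (16 * H) with hq
  have hq0 : 0 < q := by positivity
  have hq1 : q ≤ 1 := by
    rw [hq, div_le_one (by positivity)]
    linarith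
  have key : ∀ F : E → E, Cls K ε H r₀ F → MapsTo F K K → ∀ n : ℕ, ∀ x ∈ K, ∀ y ∈ K,
      ‖y - x‖ ≤ r₁ * q ^ n → ‖F y - F x‖ ≤ D / 2 ^ n := by
    intro F hF hFK n
    induction n with
    | zero =>
      intro x hx y hy _
      rw [pow_zero, div_one]
      exact hD _ (hFK hy) _ (hFK hx)
    | succ n ih =>
      intro x hx y hy hyx
      have hqn : q ^ n ≤ 1 := pow_le_one₀ hq0.le hq1
      have hrn : r₁ * q ^ n ≤ r₁ := by
        calc r₁ * q ^ n ≤ r₁ * 1 := by gcongr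
          _ = r₁ := mul_one _
      have hrn0 : 0 < r₁ * q ^ n := by positivity
      have := osc_step hpt hε0 hε hH hrn0 (hrn.trans (min_le_right _ _))
        (hF _ hrn0 (hrn.trans (min_le_left _ _))) hx (fun y hy hyx => ih x hx y hy hyx) y hy
        (by rw [mul_assoc, ← pow_succ]; exact hyx)
      calc ‖F y - F x‖ ≤ D / 2 ^ n / 2 := this
        _ = D / 2 ^ (n + 1) := by rw [pow_succ]; field_simp
  obtain ⟨n, hn⟩ : ∃ n : ℕ, D / 2 ^ n ≤ w := by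
    obtain ⟨n, hn⟩ := pow_unbounded_of_one_lt (D / w) (by norm_num : (1 : ℝ) < 2)
    refine ⟨n, ?_⟩
    rw [div_le_iff₀ (by positivity)]
    rw [div_lt_iff₀ hw] at hn
    linarith
  refine ⟨r₁ * q ^ n, by positivity, fun F hF hFK x hx y hy hxy => ?_⟩
  rw [norm_sub_rev]
  exact (key F hF hFK n x hx y hy (by rwa [norm_sub_rev])).trans hn

/-- limits of the class -/
def Lim (K : Set E) (ε H r₀ : ℝ) (Φ : E → E) : Prop :=
  ∀ δ : ℝ, 0 < δ → ∃ F : E → E, MapsTo F K K ∧ SurjOn F K K ∧ Cls K ε H r₀ F ∧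
    ∀ x ∈ K, ‖F x - Φ x‖ ≤ δ

theorem Lim.nAff {ρ₀ ε H r₀ : ℝ} (hK : IsPreconnected K) {p q : E} (hp : p ∈ K) (hq : q ∈ K)
    (hpq : p ≠ q) (hpt : Pts K ρ₀) (hε0 : 0 < ε) (hε : ε ≤ 1 / 24) (hH : 1 ≤ H) {Φ : E → E}
    (hΦ : Lim K ε H r₀ Φ) : ∀ r : ℝ, 0 < r → r ≤ r₀ → r ≤ ρ₀ → NAff K (2 * ε) H r Φ := by
  intro r hr hr0 hrρ x hx
  have hgood : (∃ y ∈ K, ‖y - x‖ ≤ r ∧ Φ y ≠ Φ x) → ∃ (l : ℝ) (T : E →L[ℝ] E) (b : E), 0 < l ∧
      (∀ v, l * ‖v‖ ≤ ‖T v‖) ∧ (∀ v, ‖T v‖ ≤ H * l * ‖v‖) ∧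
      ∀ y ∈ K, ‖y - x‖ ≤ r → ‖Φ y - (T y + b)‖ ≤ 2 * ε * l * r := by
    rintro ⟨y, hy, hyx, hne⟩
    have ha : 0 < ‖Φ y - Φ x‖ := norm_pos_iff.2 (sub_ne_zero.2 hne)
    set a : ℝ := ‖Φ y - Φ x‖ with had
    obtain ⟨F, hFK, hFs, hFc, hFΦ⟩ := hΦ (min (a / 4) (ε * (a / (4 * (H + 1))))) (by positivity)
    obtain ⟨l, T, b, hl, hT, hTH, hb⟩ := hFc r hr hr0 x hx
    have h1 : ∀ z ∈ K, ‖F z - Φ z‖ ≤ a / 4 := fun z hz => (hFΦ z hz).trans (min_le_left _ _)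
    have h2 : ∀ z ∈ K, ‖F z - Φ z‖ ≤ ε * (a / (4 * (H + 1))) := fun z hz =>
      (hFΦ z hz).trans (min_le_right _ _)
    have h3 : ‖Φ y - Φ x‖ ≤ ‖F y - F x‖ + a / 4 + a / 4 := by
      calc ‖Φ y - Φ x‖ = ‖(F y - F x) - (F y - Φ y) + (F x - Φ x)‖ := by congr 1; abel
        _ ≤ ‖(F y - F x) - (F y - Φ y)‖ + ‖F x - Φ x‖ := norm_add_le _ _
        _ ≤ ‖F y - F x‖ + ‖F y - Φ y‖ + ‖F x - Φ x‖ := by gcongr; exact norm_sub_le _ _
        _ ≤ _ := by linarith [h1 x hx, h1 y hy]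
    have h4 : ‖F y - F x‖ ≤ (H + 1) * (l * r) := by
      have e1 := hb y hy hyx
      have e2 := hb x hx (by rw [sub_self, norm_zero]; exact hr.le)
      have e3 : ‖T (y - x)‖ ≤ H * l * r := (hTH _).trans (by gcongr)
      have e4 : ε * l * r ≤ 1 / 24 * (l * r) := by
        rw [mul_assoc]
        gcongr
      have e5 : 0 < l * r := by positivity
      calc ‖F y - F x‖ = ‖(F y - (T y + b)) - (F x - (T x + b)) + T (y - x)‖ := by
            rw [map_sub]; congr 1; abel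
        _ ≤ ‖(F y - (T y + b)) - (F x - (T x + b))‖ + ‖T (y - x)‖ := norm_add_le _ _
        _ ≤ ‖F y - (T y + b)‖ + ‖F x - (T x + b)‖ + ‖T (y - x)‖ := by
            gcongr; exact norm_sub_le _ _
        _ ≤ (H + 1) * (l * r) := by nlinarith
    have h5 : a / (4 * (H + 1)) ≤ l * r := by
      rw [div_le_iff₀ (by positivity)]
      nlinarith
    refine ⟨l, T, b, hl, hT, hTH, fun z hz hzx => ?_⟩
    have h6 := hb z hz hzx
    have h7 : ε * (a / (4 * (H + 1))) ≤ ε * (l * r) := by gcongr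
    calc ‖Φ z - (T z + b)‖ = ‖(F z - (T z + b)) - (F z - Φ z)‖ := by congr 1; abel
      _ ≤ _ := norm_sub_le _ _
      _ ≤ 2 * ε * l * r := by
        have := h2 z hz
        nlinarith
  refine hgood ?_
  by_contra hcon
  push Not at hcon
  set Z : Set E := {x | x ∈ K ∧ ∀ y ∈ K, ‖y - x‖ ≤ r → Φ y = Φ x} with hZ
  have hxZ : x ∈ Z := ⟨hx, fun y hy hyx => hcon y hy hyx⟩
  have hKZ : K ⊆ Z := by
    refine chain hK (half_pos hr) (fun z hz => hz.1) ⟨x, hxZ⟩ fun z hz z' hz' hzz => ?_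
    refine ⟨hz', fun y hy hyz => ?_⟩
    -- Φ is constant on the ball of radius r/2 about z'
    have hc : ∀ u ∈ K, ‖u - z'‖ ≤ r / 2 → Φ u = Φ z' := by
      intro u hu huz
      have e1 : ‖u - z‖ ≤ r := by
        calc ‖u - z‖ = ‖(u - z') + (z' - z)‖ := by congr 1; abel
          _ ≤ _ := norm_add_le _ _
          _ ≤ r := by linarith
      rw [hz.2 u hu e1, hz.2 z' hz' (by linarith)]
    have hb : ∀ δ : ℝ, 0 < δ → ‖Φ y - Φ z'‖ ≤ (2 + 6 * (H + 1)) * δ := by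
      intro δ hδ
      obtain ⟨F, hFK, hFs, hFc, hFΦ⟩ := hΦ δ hδ
      obtain ⟨l, T, b, hl, hT, hTH, hb⟩ := hFc r hr hr0 z' hz'
      have hdif : ∀ y ∈ K, ‖y - z'‖ ≤ r → ‖(F y - F z') - T (y - z')‖ ≤ 2 * (ε * l * r) := by
        intro y hy hyx
        have h1 := hb y hy hyx
        have h2 := hb z' hz' (by rw [sub_self, norm_zero]; exact hr.le)
        calc ‖(F y - F z') - T (y - z')‖ = ‖(F y - (T y + b)) - (F z' - (T z' + b))‖ := by
              rw [map_sub]; congr 1; abel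
          _ ≤ _ := norm_sub_le _ _
          _ ≤ _ := by linarith
      obtain ⟨u, hu, hur⟩ := hpt z' hz' (r / 2) (by positivity) (by linarith)
      have f1 := hdif u hu (by linarith)
      have f2 : ‖F u - F z'‖ ≤ 2 * δ := by
        calc ‖F u - F z'‖ = ‖(F u - Φ u) - (F z' - Φ z')‖ := by
              rw [hc u hu hur.le]; congr 1; abel
          _ ≤ _ := norm_sub_le _ _
          _ ≤ 2 * δ := by linarith [hFΦ u hu, hFΦ z' hz']
      have f3 := hT (u - z')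
      rw [hur] at f3
      have f4 : ‖T (u - z')‖ ≤ ‖F u - F z'‖ + ‖(F u - F z') - T (u - z')‖ := by
        have : T (u - z') = (F u - F z') - ((F u - F z') - T (u - z')) := by abel
        calc ‖T (u - z')‖ = ‖(F u - F z') - ((F u - F z') - T (u - z'))‖ := by rw [← this]
          _ ≤ _ := norm_sub_le _ _
      have hlr : 0 < l * r := by positivity
      have f5 : ε * l * r ≤ 1 / 24 * (l * r) := by
        rw [mul_assoc]
        gcongr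
      have f6 : l * r ≤ 6 * δ := by linarith
      have f7 := hdif y hy hyz
      have f8 : ‖T (y - z')‖ ≤ H * (l * r) := by
        calc ‖T (y - z')‖ ≤ H * l * ‖y - z'‖ := hTH _
          _ ≤ H * l * r := by gcongr
          _ = H * (l * r) := by ring
      have f9 : ‖F y - F z'‖ ≤ (H + 1) * (l * r) := by
        calc ‖F y - F z'‖ = ‖((F y - F z') - T (y - z')) + T (y - z')‖ := by congr 1; abel
          _ ≤ _ := norm_add_le _ _
          _ ≤ (H + 1) * (l * r) := by linarith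
      calc ‖Φ y - Φ z'‖ = ‖(F y - F z') - (F y - Φ y) + (F z' - Φ z')‖ := by congr 1; abel
        _ ≤ ‖(F y - F z') - (F y - Φ y)‖ + ‖F z' - Φ z'‖ := norm_add_le _ _
        _ ≤ ‖F y - F z'‖ + ‖F y - Φ y‖ + ‖F z' - Φ z'‖ := by gcongr; exact norm_sub_le _ _
        _ ≤ (H + 1) * (6 * δ) + δ + δ := by
          have g1 := hFΦ y hy
          have g2 := hFΦ z' hz'
          have g3 : (H + 1) * (l * r) ≤ (H + 1) * (6 * δ) := by gcongr
          linarith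
        _ = (2 + 6 * (H + 1)) * δ := by ring
    have h0 : ‖Φ y - Φ z'‖ = 0 := by
      refine le_antisymm (le_of_forall_pos_le_add fun η hη => ?_) (norm_nonneg _)
      have := hb (η / (2 + 6 * (H + 1))) (by positivity)
      rw [mul_div_cancel₀ _ (by positivity)] at this
      linarith
    exact sub_eq_zero.1 (norm_eq_zero.1 h0)
  -- Φ is constant
  have hconst : K ⊆ {y | y ∈ K ∧ Φ y = Φ x} := by
    refine chain hK hr (fun z hz => hz.1) ⟨x, hx, rfl⟩ fun z hz z' hz' hzz => ⟨hz', ?_⟩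
    rw [(hKZ (hz.1)).2 z' hz' hzz.le]
    exact hz.2
  have h0 : 0 < ‖p - q‖ := norm_pos_iff.2 (sub_ne_zero.2 hpq)
  obtain ⟨F, hFK, hFs, hFc, hFΦ⟩ := hΦ (‖p - q‖ / 4) (by positivity)
  obtain ⟨p', hp', hpp⟩ := hFs hp
  obtain ⟨q', hq', hqq⟩ := hFs hq
  have h1 : ‖p - q‖ ≤ ‖p - q‖ / 4 + ‖p - q‖ / 4 := by
    calc ‖p - q‖ = ‖(F p' - Φ p') - (F q' - Φ q')‖ := by
          rw [hpp, hqq, (hconst hp').2, (hconst hq').2]; congr 1; abel
      _ ≤ _ := norm_sub_le _ _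
      _ ≤ _ := add_le_add (hFΦ p' hp') (hFΦ q' hq')
  linarith

end cls

end Pool.Agent.L7h32.PF
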