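import Pool.Agent.L7h32.PF.Loc

/-!
# Project PF: finiteness of the isotopy classes
-/

set_option autoImplicit false
set_option linter.unusedSectionVars false
set_option linter.unusedVariables false

open Set Filter Topology Metric MeasureTheory
open scoped ContDiff BoundedContinuousFunction

noncomputable section

namespace Pool.Agent.L7h32.PF

open Pool.Agent.L7h32.AA Pool.Agent.L7h32.PI

section fin

variable {E : Type} [NormedAddCommGroup E] [NormedSpace ℝ E] {K U : Set E} {N : E → E}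

/-- extension of a map of `K` by zero -/
def ext (K : Set E) (f : K → E) : E → E := by
  classical
  exact fun x => if h : x ∈ K then f ⟨x, h⟩ else 0

theorem ext_apply (f : K → E) {x : E} (hx : x ∈ K) : ext K f x = f ⟨x, hx⟩ := by
  unfold ext
  rw [dif_pos hx]

theorem NAff.mono_eps {ε ε' H r : ℝ} {φ : E → E} (h : NAff K ε H r φ) (hr : 0 ≤ r) (hε : ε ≤ ε') :
    NAff K ε' H r φ := by
  intro x hx
  obtain ⟨l, T, b, hl, h1, h2, h3⟩ := h x hx
  exact ⟨l, T, b, hl, h1, h2, fun y hy hyx => (h3 y hy hyx).trans (by gcongr)⟩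

theorem IsDiff.surj {F : E → E} (hF : IsDiff K F) : SurjOn F K K := by
  obtain ⟨h1, h2, G, h3, h4⟩ := hF
  exact fun x hx => ⟨G x, (h4 x hx).1, (h4 x hx).2.2⟩

theorem isDiff_id : IsDiff K id :=
  ⟨contDiff_id, fun x hx => hx, id, contDiff_id, fun x hx => ⟨hx, rfl, rfl⟩⟩

variable [FiniteDimensional ℝ E]

/-- FINITENESS, for all closed connected smooth submanifolds -/
theorem general_fin (hR : Ret K U N) (hK : IsPreconnected K) : ∃ ε : ℝ, 0 < ε ∧
    ∀ H r₀ : ℝ, 0 < r₀ → ∃ B : Set (E → E), B.Finite ∧ (∀ G ∈ B, IsDiff K G) ∧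
      ∀ F : E → E, IsDiff K F → Cls K ε H r₀ F → ∃ G ∈ B, SmIso K G F := by
  classical
  by_cases hsub : ∃ p ∈ K, ∃ q ∈ K, p ≠ q
  swap
  · push Not at hsub
    refine ⟨1, one_pos, fun H r₀ _ => ⟨{id}, finite_singleton _, ?_, fun F hF _ => ⟨id, rfl, ?_⟩⟩⟩
    · rintro G rfl
      exact isDiff_id
    · refine ⟨fun p => p.2, contDiff_snd, fun t => isDiff_id, fun x hx => rfl, fun x hx => ?_⟩
      exact hsub x hx _ (hF.2.1 x hx)
  obtain ⟨p, hpK, q, hqK, hpq⟩ := hsub
  obtain ⟨ρ₀, hρ₀, hpt⟩ := exists_pts hK hpK hqK hpq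
  borelize E
  let μ : Measure E := Measure.addHaar
  obtain ⟨η, hη⟩ := Pool.Agent.L7h34.AA.s_KER E μ
  obtain ⟨Λ, hΛ2, hΛ⟩ := exists_lam hη
  obtain ⟨t₁, C, V, p1, p2, p3, p4, p5, p6, p7⟩ := Pool.Agent.L7h73.AA.s_PI E K U N hR
  have hp : Pi0 K U N t₁ C V := ⟨p1, p2, p3, p4, p5, p6, p7⟩
  have hCΛ : 4 ≤ (C + 1) * Λ := by nlinarith
  have hpos : 0 < (C + 1) * Λ := by linarith
  set ε : ℝ := 1 / (16 * ((C + 1) * Λ)) with hε
  have hε0 : 0 < ε := by positivity
  have hε1 : ε ≤ 1 / 24 := by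
    rw [hε]
    exact one_div_le_one_div_of_le (by norm_num) (by linarith)
  have hε2 : 2 * ε * ((C + 1) * Λ) ≤ 1 / 8 := by
    rw [hε]
    have : 2 * (1 / (16 * ((C + 1) * Λ))) * ((C + 1) * Λ) = 1 / 8 := by
      field_simp
      norm_num
    exact this.le
  refine ⟨ε, hε0, fun H₀ r₀ hr₀ => ?_⟩
  set H : ℝ := max H₀ 1 with hH
  have hH1 : 1 ≤ H := le_max_right _ _
  obtain ⟨κ, w, P⟩ := exists_par (ε := 2 * ε) hR hK hp hη hΛ2 hΛ (by positivity) hε2 hH1
  have hw := P.wpos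
  obtain ⟨D, hD⟩ : ∃ D : ℝ, ∀ x ∈ K, ∀ y ∈ K, ‖x - y‖ ≤ D := by
    obtain ⟨D, hD⟩ := Metric.isBounded_iff.1 hR.cpt.isBounded
    exact ⟨D, fun x hx y hy => by rw [← dist_eq_norm]; exact hD hx hy⟩
  obtain ⟨rₑ, hrₑ, heq⟩ := equi hpt hρ₀ hε0.le hε1 hH1 hr₀ hD (w := w / 4) (by positivity)
  -- the scale
  set r : ℝ := min (min rₑ r₀) (min ρ₀ ((C + 1) * (t₁ / 2))) with hrd
  have hC := hp.one
  have ht₁ := hp.pos
  have hr0 : 0 < r := by positivity
  have hr1 : r ≤ rₑ := (min_le_left _ _).trans (min_le_left _ _)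
  have hr2 : r ≤ r₀ := (min_le_left _ _).trans (min_le_right _ _)
  have hr3 : r ≤ ρ₀ := (min_le_right _ _).trans (min_le_left _ _)
  have hr4 : r ≤ (C + 1) * (t₁ / 2) := (min_le_right _ _).trans (min_le_right _ _)
  set τ : ℝ := r / (C + 1) with hτd
  have hτ : 0 < τ := by positivity
  have hτt : τ < t₁ := by
    rw [hτd, div_lt_iff₀ (by linarith)]
    nlinarith
  have hrτ : r = (C + 1) * τ := by
    rw [hτd]
    field_simp
  have : CompactSpace K := isCompact_iff_compactSpace.1 hR.cpt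
  -- the class as a set of bounded continuous functions
  set A : Set (K →ᵇ E) := {f | ∃ F : E → E, IsDiff K F ∧ Cls K ε H r₀ F ∧ ∀ x : K, f x = F x} with hA
  have hAc : IsCompact (closure A) := by
    refine BoundedContinuousFunction.arzela_ascoli K hR.cpt A ?_ ?_
    · rintro f x ⟨F, hF, -, hfF⟩
      rw [hfF]
      exact hF.2.1 _ x.2
    · intro x₀
      rw [Metric.equicontinuousAt_iff_pair]
      intro e he
      obtain ⟨r', hr', h'⟩ := equi hpt hρ₀ hε0.le hε1 hH1 hr₀ hD (w := e / 2) (by positivity)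
      refine ⟨ball x₀ (r' / 2), ball_mem_nhds _ (by positivity), fun x hx y hy f => ?_⟩
      obtain ⟨F, hF, hFc, hfF⟩ := f.2
      have e1 : dist x y < r' := by
        calc dist x y ≤ dist x x₀ + dist y x₀ := dist_triangle_right _ _ _
          _ < r' / 2 + r' / 2 := add_lt_add hx hy
          _ = r' := by ring
      rw [hfF, hfF, dist_eq_norm]
      refine (h' F hFc hF.2.1 _ x.2 _ y.2 ?_).trans_lt (by linarith)
      rw [← dist_eq_norm]
      exact e1.le
  -- the radius of the balls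
  have hloc : ∀ f ∈ closure A, ∃ β : ℝ, 0 < β ∧ ∀ F F' : E → E, IsDiff K F → Cls K ε H r₀ F →
      (∀ x ∈ K, ‖F x - ext K f x‖ ≤ β) → IsDiff K F' → Cls K ε H r₀ F' →
      (∀ x ∈ K, ‖F' x - ext K f x‖ ≤ β) → Iso K U N F F' := by
    intro f hf
    have hlim : Lim K ε H r₀ (ext K f) := by
      intro δ hδ
      obtain ⟨g, ⟨F, hF, hFc, hgF⟩, hfg⟩ := Metric.mem_closure_iff.1 hf δ hδ
      refine ⟨F, hF.2.1, IsDiff.surj hF, hFc, fun x hx => ?_⟩
      rw [ext_apply _ hx, ← hgF ⟨x, hx⟩, ← dist_eq_norm, dist_comm]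
      exact (BoundedContinuousFunction.dist_coe_le_dist _).trans hfg.le
    have hcont : ContinuousOn (ext K f) K := by
      rw [continuousOn_iff_continuous_domRestrict]
      have e : K.domRestrict (ext K f) = f := by
        funext x
        exact ext_apply _ x.2
      rw [e]
      exact f.continuous
    have hmaps : MapsTo (ext K f) K K := by
      intro x hx
      refine hR.cpt.isClosed.closure_subset_iff.2 Subset.rfl ?_
      rw [Metric.mem_closure_iff]
      intro δ hδ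
      obtain ⟨F, hFK, -, -, hFf⟩ := hlim (δ / 2) (by positivity)
      refine ⟨F x, hFK hx, ?_⟩
      rw [dist_comm, dist_eq_norm]
      exact (hFf x hx).trans_lt (by linarith)
    have hosc : Osc K (w / 2) r (ext K f) := by
      intro x hx y hy hxy
      obtain ⟨F, hFK, -, hFc, hFf⟩ := hlim (w / 8) (by positivity)
      have e1 := heq F hFc hFK x hx y hy (hxy.trans hr1)
      calc ‖ext K f x - ext K f y‖ = ‖(F x - F y) - (F x - ext K f x) + (F y - ext K f y)‖ := by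
            congr 1; abel
        _ ≤ ‖(F x - F y) - (F x - ext K f x)‖ + ‖F y - ext K f y‖ := norm_add_le _ _
        _ ≤ ‖F x - F y‖ + ‖F x - ext K f x‖ + ‖F y - ext K f y‖ := by
            gcongr; exact norm_sub_le _ _
        _ ≤ w / 2 := by linarith [hFf x hx, hFf y hy]
    have hna := hlim.nAff hK hpK hqK hpq hpt hε0 hε1 hH1 r hr0 hr2 hr3
    obtain ⟨β, hβ, h1⟩ := P.close hcont hmaps hna hτ hτt hrτ hosc
    have hcl : ∀ F : E → E, Cls K ε H r₀ F → Cls K (2 * ε) H r F := fun F hF s hs hs2 =>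
      NAff.mono_eps (hF s hs (hs2.trans hr2)) hs.le (by linarith)
    have hos : ∀ F : E → E, IsDiff K F → Cls K ε H r₀ F → Osc K (w / 2) r F :=
      fun F hF hFc x hx y hy hxy => (heq F hFc hF.2.1 x hx y hy (hxy.trans hr1)).trans (by linarith)
    exact ⟨β, hβ, fun F F' hF hFc hFf hF' hFc' hFf' => h1 F F' (hF.emb hR) hF.2.1 (hcl F hFc)
      (hos F hF hFc) hFf (hF'.emb hR) hF'.2.1 (hcl F' hFc') (hos F' hF' hFc') hFf'⟩
  choose! β hβ hβ2 using hloc
  obtain ⟨t, ht, hcov⟩ := hAc.elim_nhds_subcover (fun f => ball f (β f))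
    fun f hf => ball_mem_nhds f (hβ f hf)
  set Good : (K →ᵇ E) → (E → E) → Prop := fun f G => IsDiff K G ∧ Cls K ε H r₀ G ∧
    ∀ x ∈ K, ‖G x - ext K f x‖ ≤ β f with hGood
  set rep : (K →ᵇ E) → (E → E) := fun f => if h : ∃ G, Good f G then h.choose else id with hrep
  refine ⟨rep '' {f | f ∈ t ∧ ∃ G, Good f G}, ?_, ?_, ?_⟩
  · exact ((t.finite_toSet.subset fun f hf => hf.1)).image _
  · rintro _ ⟨f, ⟨-, hf⟩, rfl⟩
    simp only [hrep]
    rw [dif_pos hf]
    exact hf.choose_spec.1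
  · intro F hF hFc₀
    have hFc : Cls K ε H r₀ F := fun s hs hs2 => (hFc₀ s hs hs2).mono (le_max_left _ _)
    let f₀ : K →ᵇ E := BoundedContinuousFunction.mkOfCompact
      ⟨fun x : K => F x, hF.1.continuous.comp continuous_subtype_val⟩
    have hf₀ : f₀ ∈ A := ⟨F, hF, hFc, fun x => rfl⟩
    obtain ⟨f, hf, hff⟩ := mem_iUnion₂.1 (hcov (subset_closure hf₀))
    have hg : Good f F := ⟨hF, hFc, fun x hx => by
      rw [ext_apply _ hx, ← dist_eq_norm]
      exact (BoundedContinuousFunction.dist_coe_le_dist (f := f₀) (g := f) ⟨x, hx⟩).trans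
        (le_of_lt hff)⟩
    have hex : ∃ G, Good f G := ⟨F, hg⟩
    have hsp := hex.choose_spec
    refine ⟨rep f, ⟨f, ⟨hf, hex⟩, rfl⟩, smIso_of hR hK ?_⟩
    simp only [hrep]
    rw [dif_pos hex]
    exact hβ2 f (ht f hf) _ _ hsp.1 hsp.2.1 hsp.2.2 hg.1 hg.2.1 hg.2.2

end fin

end Pool.Agent.L7h32.PF
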