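import Pool.Agent.L7h32.PF.Cls

/-!
# Project PF: families of immersions; two close members of a class are isotopic
-/

set_option autoImplicit false
set_option linter.unusedSectionVars false
set_option linter.unusedVariables false

open Set Filter Topology Metric MeasureTheory
open scoped ContDiff

noncomputable section

namespace Pool.Agent.L7h32.PF

open Pool.Agent.L7h32.AA Pool.Agent.L7h32.PI

section fam

variable {E : Type} [NormedAddCommGroup E] [NormedSpace ℝ E] [FiniteDimensional ℝ E]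
  {K U V : Set E} {N : E → E}

theorem lipSm_smul {δ u : ℝ} (hu : u ∈ Icc (0 : ℝ) 1) {h : E → E} (hh : LipSm K δ h) :
    LipSm K δ (fun x => u • h x) := by
  refine ⟨fun x hx => ?_, fun x hx y hy => ?_⟩
  · rw [norm_smul, Real.norm_eq_abs, abs_of_nonneg hu.1]
    exact (mul_le_of_le_one_left (norm_nonneg _) hu.2).trans (hh.1 x hx)
  · rw [← smul_sub, norm_smul, Real.norm_eq_abs, abs_of_nonneg hu.1]
    exact (mul_le_of_le_one_left (norm_nonneg _) hu.2).trans (hh.2 x hx y hy)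

/-- convex combinations of two perturbations -/
theorem lipSm_conv {δ u : ℝ} (hu : u ∈ Icc (0 : ℝ) 1) {a b c : E → E}
    (h1 : LipSm K δ (fun x => b x - a x)) (h2 : LipSm K δ (fun x => c x - a x)) :
    LipSm K δ (fun x => (b x + u • (c x - b x)) - a x) := by
  have e : ∀ x, (b x + u • (c x - b x)) - a x = (1 - u) • (b x - a x) + u • (c x - a x) := fun x => by
    module
  have hu1 : 0 ≤ 1 - u := by linarith [hu.2]
  simp only [e]
  refine ⟨fun x hx => ?_, fun x hx y hy => ?_⟩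
  · calc ‖(1 - u) • (b x - a x) + u • (c x - a x)‖ ≤ ‖(1 - u) • (b x - a x)‖ + ‖u • (c x - a x)‖ :=
          norm_add_le _ _
      _ = (1 - u) * ‖b x - a x‖ + u * ‖c x - a x‖ := by
          rw [norm_smul, norm_smul, Real.norm_eq_abs, Real.norm_eq_abs, abs_of_nonneg hu.1,
            abs_of_nonneg hu1]
      _ ≤ (1 - u) * δ + u * δ := by
          have := h1.1 x hx
          have := h2.1 x hx
          have := hu.1
          gcongr
      _ = δ := by ring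
  · have e2 : (1 - u) • (b x - a x) + u • (c x - a x) - ((1 - u) • (b y - a y) + u • (c y - a y)) =
        (1 - u) • (b x - a x - (b y - a y)) + u • (c x - a x - (c y - a y)) := by module
    rw [e2]
    calc _ ≤ ‖(1 - u) • (b x - a x - (b y - a y))‖ + ‖u • (c x - a x - (c y - a y))‖ :=
          norm_add_le _ _
      _ = (1 - u) * ‖b x - a x - (b y - a y)‖ + u * ‖c x - a x - (c y - a y)‖ := by
          rw [norm_smul, norm_smul, Real.norm_eq_abs, Real.norm_eq_abs, abs_of_nonneg hu.1,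
            abs_of_nonneg hu1]
      _ ≤ (1 - u) * (δ * ‖x - y‖) + u * (δ * ‖x - y‖) := by
          have := h1.2 x hx y hy
          have := h2.2 x hx y hy
          have := hu.1
          gcongr
      _ = δ * ‖x - y‖ := by ring

/-- composition with the retraction -/
theorem comp_near (hR : Ret K U N) (hV : IsOpen V) (hKV : K ⊆ V) {a : E → E}
    (ha : ContDiffOn ℝ ∞ a V) (hmem : ∀ x ∈ K, a x ∈ U) (δ' : ℝ) (hδ' : 0 < δ') :
    ∃ δ : ℝ, 0 < δ ∧ ∀ a' : E → E, LipSm K δ (fun x => a' x - a x) →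
      (∀ x ∈ K, a' x ∈ U) ∧ LipSm K δ' (fun x => N (a' x) - N (a x)) := by
  obtain ⟨L, -, hLip⟩ := lip_of_smooth Pool.Agent.L7h73.AA.s_CTS hR.cpt hV hKV ha
  exact Pool.Agent.L7h69.PI.s_COMP E E E K U a L N hR.cpt hR.opn hR.smooth hmem hLip δ' hδ'

/-- two perturbations of an embedding `N ∘ a` are isotopic -/
theorem iso_near (hR : Ret K U N) (hV : IsOpen V) (hKV : K ⊆ V) {a : E → E}
    (ha : ContDiffOn ℝ ∞ a V) (hmem : ∀ x ∈ K, a x ∈ U) (hE : Emb K U N (fun x => N (a x))) :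
    ∃ δ : ℝ, 0 < δ ∧ ∀ b c : E → E, ContDiffOn ℝ ∞ b V → ContDiffOn ℝ ∞ c V →
      LipSm K δ (fun x => b x - a x) → LipSm K δ (fun x => c x - a x) →
      Iso K U N (fun x => N (b x)) (fun x => N (c x)) := by
  obtain ⟨δ₁, hδ₁, h2⟩ := emb_stable hE
  obtain ⟨δ₂, hδ₂, h3⟩ := comp_near hR hV hKV ha hmem δ₁ hδ₁
  refine ⟨δ₂, hδ₂, fun b c hb hc hba hca => ?_⟩
  refine iso_line hR hV hKV hb hc (fun u hu => (h3 _ (lipSm_conv hu hba hca)).1)
    fun u hu => h2 _ ?_ (h3 _ (lipSm_conv hu hba hca)).2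
  have h8 : ContDiffOn ℝ ∞ (fun x => b x + u • (c x - b x)) V :=
    hb.add (contDiffOn_const.smul (hc.sub hb))
  exact hR.smooth.comp (h8.comp hR.smooth fun x hx => hKV (hR.maps x hx))
    fun x hx => (h3 _ (lipSm_conv hu hba hca)).1 _ (hR.maps x hx)

theorem iso_trans (hR : Ret K U N) {f g h : E → E} (h1 : Iso K U N f g) (h2 : Iso K U N g h) :
    Iso K U N f h := (Pool.Agent.L7h65.PI.s_TRANS E K U N f g h hR).1 h1 h2

theorem iso_symm (hR : Ret K U N) {f g : E → E} (h1 : Iso K U N f g) : Iso K U N g f :=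
  (Pool.Agent.L7h65.PI.s_TRANS E K U N f g g hR).2 h1

/-- FAMILIES: a family `a s`, continuous in the Lipschitz norm, such that all `N ∘ a s` are immersions -/
theorem family_iso (hR : Ret K U N) (hK : IsPreconnected K) (hV : IsOpen V) (hKV : K ⊆ V)
    {a : ℝ → E → E} (hsm : ∀ s ∈ Icc (0 : ℝ) 1, ContDiffOn ℝ ∞ (a s) V)
    (hmem : ∀ s ∈ Icc (0 : ℝ) 1, ∀ x ∈ K, a s x ∈ U)
    (himm : ∀ s ∈ Icc (0 : ℝ) 1, Immer K U N (fun x => N (a s x)))
    (hcts : ∀ s ∈ Icc (0 : ℝ) 1, ∀ δ : ℝ, 0 < δ → ∃ τ' : ℝ, 0 < τ' ∧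
      ∀ s' ∈ Icc (0 : ℝ) 1, |s' - s| < τ' → LipSm K δ (fun x => a s' x - a s x))
    (h0 : InjOn (fun x => N (a 0 x)) K) :
    (∀ s ∈ Icc (0 : ℝ) 1, InjOn (fun x => N (a s x)) K) ∧
      ∀ s ∈ Icc (0 : ℝ) 1, Iso K U N (fun x => N (a 0 x)) (fun x => N (a s x)) := by
  have hL := Pool.Agent.L7h34.AA.s_LOW
  have hinj : ∀ s ∈ Icc (0 : ℝ) 1, InjOn (fun x => N (a s x)) K := by
    refine icc_const (fun s hs => ?_) h0
    obtain ⟨δ₁, hδ₁, h2⟩ := inj_local hL pSURJ hR hK (himm s hs)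
    obtain ⟨δ₂, hδ₂, h3⟩ := comp_near hR hV hKV (hsm s hs) (hmem s hs) δ₁ hδ₁
    obtain ⟨τ', hτ', h4⟩ := hcts s hs δ₂ hδ₂
    exact ⟨τ', hτ', fun s' hs' hss => h2 _ (himm s' hs').1 (himm s' hs').2.1
      (h3 (a s') (h4 s' hs' hss)).2⟩
  refine ⟨hinj, ?_⟩
  have hloc : ∀ s ∈ Icc (0 : ℝ) 1, ∃ τ' : ℝ, 0 < τ' ∧ ∀ s' ∈ Icc (0 : ℝ) 1, |s' - s| < τ' →
      Iso K U N (fun x => N (a s x)) (fun x => N (a s' x)) := by
    intro s hs
    have hemb : Emb K U N (fun x => N (a s x)) := hL E E K U N _ hR (himm s hs).1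
      (fun x hx y hy hxy => hinj s hs hx hy hxy) (himm s hs).2.2
    obtain ⟨δ₁, hδ₁, h2⟩ := iso_near hR hV hKV (hsm s hs) (hmem s hs) hemb
    obtain ⟨τ', hτ', h4⟩ := hcts s hs δ₁ hδ₁
    refine ⟨τ', hτ', fun s' hs' hss => h2 _ _ (hsm s hs) (hsm s' hs') ?_ (h4 s' hs' hss)⟩
    simp only [sub_self]
    exact ⟨fun x _ => by rw [norm_zero]; exact hδ₁.le, fun x _ y _ => by
      rw [sub_self, norm_zero]; positivity⟩
  have i0 : (0 : ℝ) ∈ Icc (0 : ℝ) 1 := by simp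
  refine icc_const (fun s hs => ?_) ?_
  · obtain ⟨τ', hτ', h2⟩ := hloc s hs
    exact ⟨τ', hτ', fun s' hs' hss => ⟨fun h3 => iso_trans hR h3 (h2 s' hs' hss),
      fun h3 => iso_trans hR h3 (iso_symm hR (h2 s' hs' hss))⟩⟩
  · obtain ⟨τ', hτ', h2⟩ := hloc 0 i0
    exact h2 0 i0 (by rw [sub_self, abs_zero]; exact hτ')

end fam

section moll

variable {E : Type} [NormedAddCommGroup E] [NormedSpace ℝ E] [FiniteDimensional ℝ E]
  [MeasurableSpace E] [BorelSpace E] {μ : Measure E} [μ.IsAddHaarMeasure]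
  {K U V : Set E} {N : E → E} {t₁ C : ℝ}

/-- mollification is Lipschitz from the uniform to the Lipschitz norm -/
theorem moll_lip (hR : Ret K U N) (hp : Pi0 K U N t₁ C V) {η : E → ℝ} (h : Ker μ η) {Λ : ℝ}
    (hΛ2 : 2 ≤ Λ)
    (hΛ : ∀ v : E, ∫ y, |η y - η (y + v)| ∂μ ≤ Λ * ‖v‖ ∧ ∫ y, |η y - η (y + v)| ∂μ ≤ 2)
    {τ : ℝ} (hτ : 0 < τ) (hτ1 : τ < t₁) (δ : ℝ) (hδ : 0 < δ) : ∃ β : ℝ, 0 < β ∧ ∀ φ ψ : E → E,
      ContinuousOn (fun x => φ (N x)) U → ContinuousOn (fun x => ψ (N x)) U →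
      (∀ x ∈ K, ‖φ x - ψ x‖ ≤ β) → LipSm K δ (fun x =>
        moll μ η (fun z => φ (N z)) τ x - moll μ η (fun z => ψ (N z)) τ x) := by
  set β : ℝ := δ * min 1 (τ / (Λ + 1)) with hβ
  have hβ0 : 0 < β := by positivity
  refine ⟨β, hβ0, fun φ ψ hφ hψ hb => ?_⟩
  have hττ : |τ| < t₁ := by rwa [abs_of_pos hτ]
  have hW : ContinuousOn (fun z => φ (N z) - ψ (N z)) U := hφ.sub hψ
  have e : ∀ x ∈ K, moll μ η (fun z => φ (N z)) τ x - moll μ η (fun z => ψ (N z)) τ x =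
      moll μ η (fun z => φ (N z) - ψ (N z)) τ x := fun x hx =>
    moll_sub h hR.opn hφ hψ x τ (hp.mem (hp.sub hx) hττ)
  have hbb : ∀ x ∈ K, ∀ y : E, ‖y‖ ≤ 1 →
      ‖φ (N (x + τ • y)) - ψ (N (x + τ • y))‖ ≤ β := fun x hx y hy =>
    hb _ (hR.maps _ (hp.mem (hp.sub hx) hττ y hy))
  have hβ1 : β ≤ δ := by
    calc β ≤ δ * 1 := by
          rw [hβ]
          gcongr
          exact min_le_left _ _
      _ = δ := mul_one _
  have hβ2 : β * (Λ / τ) ≤ δ := by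
    calc β * (Λ / τ) ≤ (δ * (τ / (Λ + 1))) * (Λ / τ) := by
          rw [hβ]
          gcongr
          exact min_le_right _ _
      _ = δ * (Λ / (Λ + 1)) := by field_simp
      _ ≤ δ * 1 := by
          gcongr
          rw [div_le_one (by linarith)]
          linarith
      _ = δ := mul_one _
  refine ⟨fun x hx => ?_, fun x hx y hy => ?_⟩
  · simp only [e x hx]
    have := moll_close h hR.opn hW x τ (hp.mem (hp.sub hx) hττ) 0 (β := β) (fun y hy => by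
      rw [sub_zero]
      exact hbb x hx y hy)
    rw [sub_zero] at this
    linarith
  · simp only [e x hx, e y hy]
    have := (moll_diff h hΛ hR.opn hW x y (β := β) hτ (hp.mem (hp.sub hx) hττ)
      (hp.mem (hp.sub hy) hττ) (hbb x hx) (hbb y hy)).1
    calc _ ≤ _ := this
      _ = β * (Λ / τ) * ‖x - y‖ := by ring
      _ ≤ δ * ‖x - y‖ := by gcongr

/-- the scale parameters: everything that does not depend on the map -/
structure Par (μ : Measure E) (K U : Set E) (N : E → E) (t₁ C : ℝ) (V : Set E) (η : E → ℝ)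
    (Λ ε H κ w : ℝ) : Prop where
  ret : Ret K U N
  conn : IsPreconnected K
  pi0 : Pi0 K U N t₁ C V
  ker : Ker μ η
  lam2 : 2 ≤ Λ
  lam : ∀ v : E, ∫ y, |η y - η (y + v)| ∂μ ≤ Λ * ‖v‖ ∧ ∫ y, |η y - η (y + v)| ∂μ ≤ 2
  eps0 : 0 ≤ ε
  eps : ε * ((C + 1) * Λ) ≤ 1 / 8
  one : 1 ≤ H
  wpos : 0 < w
  nu : NU1 K U N κ w
  kap0 : 0 ≤ κ
  kap1 : κ * ((H + 1) * (C + 1) * Λ) ≤ 1 / 16
  kap2 : κ * (32 * H) ≤ 1

variable {η : E → ℝ} {Λ ε H κ w : ℝ}

/-- existence of `κ`, `w` -/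
theorem exists_par (hR : Ret K U N) (hK : IsPreconnected K) (hp : Pi0 K U N t₁ C V) (h : Ker μ η)
    (hΛ2 : 2 ≤ Λ)
    (hΛ : ∀ v : E, ∫ y, |η y - η (y + v)| ∂μ ≤ Λ * ‖v‖ ∧ ∫ y, |η y - η (y + v)| ∂μ ≤ 2)
    (hε0 : 0 ≤ ε) (hε : ε * ((C + 1) * Λ) ≤ 1 / 8) (hH : 1 ≤ H) :
    ∃ κ w : ℝ, Par μ K U N t₁ C V η Λ ε H κ w := by
  have hC := hp.one
  set κ : ℝ := min (1 / (16 * ((H + 1) * (C + 1) * Λ))) (1 / (32 * H)) with hκ
  have hκ0 : 0 < κ := by positivity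
  have hκ1 : κ * ((H + 1) * (C + 1) * Λ) ≤ 1 / 16 := by
    calc κ * ((H + 1) * (C + 1) * Λ) ≤ (1 / (16 * ((H + 1) * (C + 1) * Λ))) *
          ((H + 1) * (C + 1) * Λ) := by
          gcongr
          exact min_le_left _ _
      _ = 1 / 16 := by
        have : 0 < Λ := by linarith
        field_simp
  have hκ2 : κ * (32 * H) ≤ 1 := by
    calc κ * (32 * H) ≤ (1 / (32 * H)) * (32 * H) := by
          gcongr
          exact min_le_right _ _
      _ = 1 := by field_simp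
  obtain ⟨w, hw, hNU1⟩ := (Pool.Agent.L7h69.PI.s_NU E K U N hR).1 κ hκ0
  exact ⟨κ, w, ⟨hR, hK, hp, h, hΛ2, hΛ, hε0, hε, hH, hw, hNU1, hκ0.le, hκ1, hκ2⟩⟩

/-- the oscillation at the scale `r` is small -/
def Osc (K : Set E) (w r : ℝ) (F : E → E) : Prop :=
  ∀ x ∈ K, ∀ y ∈ K, ‖x - y‖ ≤ r → ‖F x - F y‖ ≤ w

/-- mollifications of nearly affine maps: smooth, into `U`, immersions after composition with `N` -/
theorem Par.imm (P : Par μ K U N t₁ C V η Λ ε H κ w) {φ : E → E}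
    (hφ : ContinuousOn (fun x => φ (N x)) U) (hφK : MapsTo φ K K) {r τ : ℝ}
    (hA : NAff K ε H r φ) (hτ : 0 < τ) (hτ1 : τ < t₁) (hr : r = (C + 1) * τ)
    (hosc : Osc K (w / 2) r φ) :
    ContDiffOn ℝ ∞ (fun x => moll μ η (fun z => φ (N z)) τ x) V ∧
    (∀ x ∈ K, moll μ η (fun z => φ (N z)) τ x ∈ U) ∧
    Immer K U N (fun x => N (moll μ η (fun z => φ (N z)) τ x)) := by
  have hR := P.ret
  have hp := P.pi0
  have hw := P.wpos
  have hCτ : C * τ ≤ r := by rw [hr]; linarith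
  have hmem : ∀ x ∈ K, moll μ η (fun z => φ (N z)) τ x ∈ U := by
    intro x hx
    have m1 := moll_near hR hp P.ker hφ hτ hτ1 hCτ hosc hx hx (by
      rw [sub_self, norm_zero, add_zero]; exact hCτ)
    exact (P.nu (φ x) (hφK hx) (moll μ η (fun z => φ (N z)) τ x) (φ x) (by linarith) (by
      rw [sub_self, norm_zero]; exact hw)).1
  have hsm : ContDiffOn ℝ ∞ (fun x => moll μ η (fun z => φ (N z)) τ x) V :=
    Pool.Agent.L7h34.AA.mol2 P.ker hR.opn hp.opn hp.pos hp.inU hφ hτ hτ1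
  refine ⟨hsm, hmem, ?_, fun x hx => hR.maps _ (hmem x hx), fun x hx => ?_⟩
  · exact hR.smooth.comp (hsm.comp hR.smooth fun x hx => hp.sub (hR.maps x hx))
      fun x hx => hmem _ (hR.maps x hx)
  · obtain ⟨l, hl, h2⟩ := Pool.Agent.L7h32.PI.imm hR hp P.ker P.lam2 P.lam P.eps0 P.eps P.one P.nu
      P.kap0 P.kap1 P.kap2 hφ hφK hA hτ hτ1 hr hw hosc hx
    exact ⟨l, hl, τ, hτ, fun y hy hyx => h2 y hy hyx.le⟩

/-- a diffeomorphism which is nearly affine at all scales `≤ r` is isotopic to its mollification at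
the scale `r` -/
theorem Par.self (P : Par μ K U N t₁ C V η Λ ε H κ w) {F : E → E} (hF : Emb K U N F)
    (hFK : MapsTo F K K) {r τ : ℝ} (hA : Cls K ε H r F) (hτ : 0 < τ) (hτ1 : τ < t₁)
    (hr : r = (C + 1) * τ) (hosc : Osc K (w / 2) r F) :
    InjOn (fun x => N (moll μ η (fun z => F (N z)) τ x)) K ∧
    Iso K U N F (fun x => N (moll μ η (fun z => F (N z)) τ x)) := by
  have hR := P.ret
  have hp := P.pi0
  have hC := hp.one
  obtain ⟨τ₀, hτ₀, st⟩ := iso_start Pool.Agent.L7h34.AA.s_MOL Pool.Agent.L7h73.AA.s_CTS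
    Pool.Agent.L7h69.PI.s_COMP hR hp P.ker hF hFK
  set τ₂ : ℝ := min (τ₀ / 2) τ with hτ₂
  have hτ₂0 : 0 < τ₂ := by positivity
  have hτ₂1 : τ₂ < τ₀ := (min_le_left _ _).trans_lt (by linarith)
  have hτ₂2 : τ₂ ≤ τ := min_le_right _ _
  obtain ⟨s1, s2⟩ := st τ₂ hτ₂0 hτ₂1
  set σ : ℝ → ℝ := fun s => τ₂ + s * (τ - τ₂) with hσ
  have hσb : ∀ s ∈ Icc (0 : ℝ) 1, 0 < σ s ∧ σ s ≤ τ := by
    intro s hs
    have h1 : 0 ≤ s * (τ - τ₂) := mul_nonneg hs.1 (by linarith)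
    have h2 : s * (τ - τ₂) ≤ τ - τ₂ := mul_le_of_le_one_left (by linarith) hs.2
    simp only [hσ]
    constructor <;> linarith
  have him : ∀ s ∈ Icc (0 : ℝ) 1, _ := fun s hs =>
    P.imm (φ := F) hF.smooth.continuousOn hFK (r := (C + 1) * σ s) (τ := σ s)
      (hA _ (mul_pos (by linarith) (hσb s hs).1) (by
        rw [hr]
        have := (hσb s hs).2
        gcongr)) (hσb s hs).1 ((hσb s hs).2.trans_lt hτ1) rfl (fun x hx y hy hxy =>
        hosc x hx y hy (hxy.trans (by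
          rw [hr]
          have := (hσb s hs).2
          gcongr)))
  have hfam := family_iso (a := fun s x => moll μ η (fun z => F (N z)) (σ s) x) hR P.conn hp.opn
    hp.sub (fun s hs => (him s hs).1) (fun s hs => (him s hs).2.1) (fun s hs => (him s hs).2.2) ?_
    (by
      simp only [hσ, zero_mul, add_zero]
      exact s2)
  · have i1 : (1 : ℝ) ∈ Icc (0 : ℝ) 1 := by simp
    have e1 : σ 1 = τ := by simp only [hσ]; ring
    have e0 : σ 0 = τ₂ := by simp only [hσ]; ring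
    have f1 := hfam.1 1 i1
    have f2 := hfam.2 1 i1
    simp only [e1] at f1
    simp only [e1, e0] at f2
    exact ⟨f1, iso_trans hR s1 f2⟩
  · intro s hs δ hδ
    have hJ : σ s ∈ Ioo (-t₁) t₁ := ⟨by linarith [(hσb s hs).1, hp.pos],
      (hσb s hs).2.trans_lt hτ1⟩
    obtain ⟨τ', hτ', h3⟩ := Pool.Agent.L7h73.AA.s_CTS E E K V (Ioo (-t₁) t₁) _ hR.cpt hp.opn hp.sub
      isOpen_Ioo (joint Pool.Agent.L7h34.AA.s_MOL hR hp P.ker hF.smooth) (σ s) hJ δ hδ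
    refine ⟨τ' / (τ + 1), by positivity, fun s' hs' hss => h3 (σ s') ⟨by
      linarith [(hσb s' hs').1, hp.pos], (hσb s' hs').2.trans_lt hτ1⟩ ?_⟩
    have e : σ s' - σ s = (s' - s) * (τ - τ₂) := by simp only [hσ]; ring
    rw [e, abs_mul, abs_of_nonneg (by linarith : 0 ≤ τ - τ₂)]
    calc |s' - s| * (τ - τ₂) ≤ |s' - s| * (τ + 1) := by
          have := abs_nonneg (s' - s)
          gcongr
          linarith
      _ < τ' := by
          rw [lt_div_iff₀ (by positivity)] at hss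
          exact hss

/-- LEMMA C: diffeomorphisms of the class which are close to `Φ` are isotopic -/
theorem Par.close (P : Par μ K U N t₁ C V η Λ ε H κ w) {Φ : E → E} (hΦ : ContinuousOn Φ K)
    (hΦK : MapsTo Φ K K) {r τ : ℝ} (hA : NAff K ε H r Φ) (hτ : 0 < τ) (hτ1 : τ < t₁)
    (hr : r = (C + 1) * τ) (hosc : Osc K (w / 2) r Φ) : ∃ β : ℝ, 0 < β ∧ ∀ F F' : E → E,
      Emb K U N F → MapsTo F K K → Cls K ε H r F → Osc K (w / 2) r F → (∀ x ∈ K, ‖F x - Φ x‖ ≤ β) →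
      Emb K U N F' → MapsTo F' K K → Cls K ε H r F' → Osc K (w / 2) r F' →
      (∀ x ∈ K, ‖F' x - Φ x‖ ≤ β) → Iso K U N F F' := by
  have hR := P.ret
  have hp := P.pi0
  have hΦc : ContinuousOn (fun x => Φ (N x)) U :=
    hΦ.comp hR.smooth.continuousOn fun x hx => hR.maps x hx
  obtain ⟨hsm, hmem, him⟩ := P.imm hΦc hΦK hA hτ hτ1 hr hosc
  obtain ⟨δ₁, hδ₁, h2⟩ := inj_local Pool.Agent.L7h34.AA.s_LOW pSURJ hR P.conn him
  obtain ⟨δ₂, hδ₂, h3⟩ := comp_near hR hp.opn hp.sub hsm hmem δ₁ hδ₁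
  have himF : ∀ F : E → E, Emb K U N F → MapsTo F K K → Cls K ε H r F → Osc K (w / 2) r F → _ :=
    fun F hF hFK hFc hFo => P.imm (φ := F) hF.smooth.continuousOn hFK
      (hFc r (by rw [hr]; have := hp.one; positivity) le_rfl) hτ hτ1 hr hFo
  by_cases hinj : InjOn (fun x => N (moll μ η (fun z => Φ (N z)) τ x)) K
  · have hemb : Emb K U N (fun x => N (moll μ η (fun z => Φ (N z)) τ x)) :=
      Pool.Agent.L7h34.AA.s_LOW E E K U N _ hR him.1 (fun x hx y hy hxy => hinj hx hy hxy) him.2.2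
    obtain ⟨δ₃, hδ₃, h4⟩ := iso_near hR hp.opn hp.sub hsm hmem hemb
    obtain ⟨β, hβ, h5⟩ := moll_lip hR hp P.ker P.lam2 P.lam hτ hτ1 δ₃ hδ₃
    refine ⟨β, hβ, fun F F' hF hFK hFc hFo hFΦ hF' hFK' hFc' hFo' hFΦ' => ?_⟩
    have g1 := (P.self hF hFK hFc hτ hτ1 hr hFo).2
    have g2 := (P.self hF' hFK' hFc' hτ hτ1 hr hFo').2
    have g3 := h4 _ _ (himF F hF hFK hFc hFo).1 (himF F' hF' hFK' hFc' hFo').1
      (h5 F Φ hF.smooth.continuousOn hΦc hFΦ) (h5 F' Φ hF'.smooth.continuousOn hΦc hFΦ')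
    exact iso_trans hR g1 (iso_trans hR g3 (iso_symm hR g2))
  · obtain ⟨β, hβ, h5⟩ := moll_lip hR hp P.ker P.lam2 P.lam hτ hτ1 δ₂ hδ₂
    refine ⟨β, hβ, fun F F' hF hFK hFc hFo hFΦ hF' hFK' hFc' hFo' hFΦ' => ?_⟩
    have g1 := (P.self hF hFK hFc hτ hτ1 hr hFo).1
    have g2 := himF F hF hFK hFc hFo
    exact absurd ((h2 _ g2.2.2.1 g2.2.2.2.1
      (h3 _ (h5 F Φ hF.smooth.continuousOn hΦc hFΦ)).2).2 g1) hinj

end moll

end Pool.Agent.L7h32.PF
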